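import Pool.Agent.U585.GC.Diag

/-!
# Lower bounds: Parseval's identity
-/

set_option autoImplicit false

open Finset

namespace Pool.Agent.U585.SK

open Pool.Agent.U585.GC (rf Qn Qn_bound)

lemma geom {H : ℕ} {ζ : ℂ} (hζ : IsPrimitiveRoot ζ H) (hH : 0 < H) {a n m : ℕ}
    (hn : n ∈ Ioc a (a + H)) (hm : m ∈ Ioc a (a + H)) :
    ∑ j ∈ range H, (ζ ^ n * (ζ ^ m)⁻¹) ^ j = if n = m then (H : ℂ) else 0 := by
  have hζ0 : ζ ≠ 0 := hζ.ne_zero hH.ne'
  split_ifs with h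
  · subst h
    rw [mul_inv_cancel₀ (pow_ne_zero _ hζ0)]
    simp
  · rw [mem_Ioc] at hn hm
    have h1 : ζ ^ n * (ζ ^ m)⁻¹ ≠ 1 := by
      intro h1
      have h2 : ζ ^ n = ζ ^ m := by
        rw [← div_eq_mul_inv, div_eq_one_iff_eq (pow_ne_zero _ hζ0)] at h1
        exact h1
      rcases lt_or_gt_of_ne h with h3 | h3
      · have h4 : ζ ^ (m - n) = 1 := by
          have h5 : ζ ^ m = ζ ^ (m - n) * ζ ^ n := by
            rw [← pow_add]; congr 1; omega
          rw [h5] at h2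
          exact mul_right_cancel₀ (pow_ne_zero n hζ0) (by rw [one_mul]; exact h2.symm)
        have h6 := Nat.le_of_dvd (by omega) (hζ.dvd_of_pow_eq_one _ h4)
        omega
      · have h4 : ζ ^ (n - m) = 1 := by
          have h5 : ζ ^ n = ζ ^ (n - m) * ζ ^ m := by
            rw [← pow_add]; congr 1; omega
          rw [h5] at h2
          exact mul_right_cancel₀ (pow_ne_zero m hζ0) (by rw [one_mul]; exact h2)
        have h6 := Nat.le_of_dvd (by omega) (hζ.dvd_of_pow_eq_one _ h4)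
        omega
    rw [geom_sum_eq h1]
    have h2 : (ζ ^ n * (ζ ^ m)⁻¹) ^ H = 1 := by
      rw [mul_pow, inv_pow, ← pow_mul, ← pow_mul, mul_comm n H, mul_comm m H, pow_mul, pow_mul,
        hζ.pow_eq_one]
      simp
    rw [h2, sub_self, zero_div]

/-- a large value of an exponential sum over a window -/
theorem large (c : ℕ → ℝ) (a H : ℕ) (hH : 1 ≤ H) : ∃ j < H,
    ∑ n ∈ Ioc a (a + H), c n ^ 2 ≤ ‖∑ n ∈ Ioc a (a + H), (c n : ℂ) *
      Complex.exp (2 * Real.pi * Complex.I * n * ((j : ℝ) / H : ℝ))‖ ^ 2 := by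
  classical
  by_contra hcon
  push Not at hcon
  have hH0 : (0 : ℝ) < H := by exact_mod_cast hH
  set ζ : ℂ := Complex.exp (2 * Real.pi * Complex.I / H) with hζ
  have hprim : IsPrimitiveRoot ζ H := Complex.isPrimitiveRoot_exp H (by omega)
  have hζn : ‖ζ‖ = 1 := hprim.norm'_eq_one (by omega)
  have hconj : ∀ m : ℕ, (starRingEnd ℂ) (ζ ^ m) = (ζ ^ m)⁻¹ := by
    intro m
    rw [Complex.inv_def, Complex.normSq_eq_norm_sq, norm_pow, hζn]
    simp
  have he : ∀ n j : ℕ, Complex.exp (2 * Real.pi * Complex.I * n * ((j : ℝ) / H : ℝ)) =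
      (ζ ^ n) ^ j := by
    intro n j
    rw [hζ, ← pow_mul, ← Complex.exp_nat_mul]
    congr 1
    push_cast
    ring
  set S : ℕ → ℂ := fun j => ∑ n ∈ Ioc a (a + H), (c n : ℂ) * (ζ ^ n) ^ j with hS
  have hS2 : ∀ j, ((‖S j‖ ^ 2 : ℝ) : ℂ) = ∑ n ∈ Ioc a (a + H), ∑ m ∈ Ioc a (a + H),
      (c n : ℂ) * c m * (ζ ^ n * (ζ ^ m)⁻¹) ^ j := by
    intro j
    have h1 : ((‖S j‖ ^ 2 : ℝ) : ℂ) = S j * (starRingEnd ℂ) (S j) := by
      rw [Complex.mul_conj, Complex.normSq_eq_norm_sq]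
    rw [h1, hS]
    simp only
    rw [map_sum, sum_mul_sum]
    refine sum_congr rfl fun n _ => sum_congr rfl fun m _ => ?_
    rw [map_mul, map_pow, hconj, Complex.conj_ofReal, mul_pow]
    ring
  have hsum : ∑ j ∈ range H, ‖S j‖ ^ 2 = H * ∑ n ∈ Ioc a (a + H), c n ^ 2 := by
    have h1 : ((∑ j ∈ range H, ‖S j‖ ^ 2 : ℝ) : ℂ) =
        ((H * ∑ n ∈ Ioc a (a + H), c n ^ 2 : ℝ) : ℂ) := by
      rw [Complex.ofReal_sum]
      simp_rw [hS2]
      rw [sum_comm]
      have h2 : ∀ n ∈ Ioc a (a + H), ∑ j ∈ range H, ∑ m ∈ Ioc a (a + H),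
          (c n : ℂ) * c m * (ζ ^ n * (ζ ^ m)⁻¹) ^ j = H * (c n : ℂ) ^ 2 := by
        intro n hn
        rw [sum_comm]
        have h3 : ∀ m ∈ Ioc a (a + H), ∑ j ∈ range H, (c n : ℂ) * c m *
            (ζ ^ n * (ζ ^ m)⁻¹) ^ j = if n = m then (c n : ℂ) * c m * H else 0 := by
          intro m hm
          rw [← mul_sum, geom hprim hH hn hm]
          split_ifs <;> simp
        rw [sum_congr rfl h3, sum_ite_eq, if_pos hn]
        ring
      rw [sum_congr rfl h2, ← mul_sum]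
      push_cast
      rfl
    exact_mod_cast h1
  have hlt : ∑ j ∈ range H, ‖S j‖ ^ 2 < ∑ _j ∈ range H, ∑ n ∈ Ioc a (a + H), c n ^ 2 := by
    refine sum_lt_sum_of_nonempty ⟨0, mem_range.2 (by omega)⟩ fun j hj => ?_
    have := hcon j (mem_range.1 hj)
    simp_rw [he] at this
    exact this
  rw [hsum, sum_const, card_range, nsmul_eq_mul] at hlt
  exact lt_irrefl _ hlt

lemma rf_sq {s : ℕ → ℝ} (hs : ∀ p, s p = 1 ∨ s p = -1) (n : ℕ) :
    rf s n ^ 2 = open Classical in if Squarefree n then 1 else 0 := by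
  classical
  unfold rf
  split_ifs with h
  · rw [← prod_pow]
    refine prod_eq_one fun p _ => ?_
    rcases hs p with h | h <;> rw [h] <;> norm_num
  · simp

/-- the number of squarefree integers in long windows -/
theorem sqf_window (δ : ℝ) (hδ : 0 < δ) (hδ2 : δ ≤ 1 / 2) : ∃ N₀ : ℕ, ∀ a b : ℕ, N₀ ≤ b → a ≤ b →
    (b : ℝ) ^ (1 / 2 + δ) ≤ b - a → ((b : ℝ) - a) / 2 ≤
      (open Classical in ((Ioc a b).filter fun n => Squarefree n).card : ℝ) := by
  classical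
  obtain ⟨C, hC, h⟩ := Qn_bound (δ / 2) (by linarith) (by linarith)
  have ht : Filter.Tendsto (fun b : ℕ => (b : ℝ) ^ (δ / 2)) Filter.atTop Filter.atTop :=
    (tendsto_rpow_atTop (by linarith)).comp tendsto_natCast_atTop_atTop
  obtain ⟨N₀, hN₀⟩ := Filter.eventually_atTop.1 (ht.eventually_ge_atTop (40 * C))
  refine ⟨max N₀ 1, fun a b hb hab hw => ?_⟩
  have hb1 : (1 : ℝ) ≤ b := by exact_mod_cast (le_max_right N₀ 1).trans hb
  have hb0 : (0 : ℝ) < b := by linarith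
  have h1 := hN₀ b ((le_max_left N₀ 1).trans hb)
  have h2 := (abs_le.1 (h b)).1
  have h3 := (abs_le.1 (h a)).2
  have h4 : (a : ℝ) ^ (1 / 2 + δ / 2) ≤ (b : ℝ) ^ (1 / 2 + δ / 2) :=
    Real.rpow_le_rpow (Nat.cast_nonneg _) (by exact_mod_cast hab) (by linarith)
  have h5 : 40 * C * (b : ℝ) ^ (1 / 2 + δ / 2) ≤ b - a := by
    calc 40 * C * (b : ℝ) ^ (1 / 2 + δ / 2) ≤ (b : ℝ) ^ (δ / 2) * (b : ℝ) ^ (1 / 2 + δ / 2) :=
          mul_le_mul_of_nonneg_right h1 (by positivity)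
      _ = (b : ℝ) ^ (1 / 2 + δ) := by
          rw [← Real.rpow_add hb0]
          congr 1
          ring
      _ ≤ _ := hw
  have hcard : (Qn b : ℝ) = Qn a + (((Ioc a b).filter fun n => Squarefree n).card : ℝ) := by
    have : Qn b = Qn a + ((Ioc a b).filter fun n => Squarefree n).card := by
      unfold Qn
      rw [← card_union_of_disjoint]
      · congr 1
        ext n
        simp only [mem_filter, mem_Icc, mem_union, mem_Ioc]
        constructor
        · rintro ⟨⟨h6, h7⟩, h8⟩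
          rcases le_or_gt n a with h9 | h9
          · exact Or.inl ⟨⟨h6, h9⟩, h8⟩
          · exact Or.inr ⟨⟨h9, h7⟩, h8⟩
        · rintro (⟨⟨h6, h7⟩, h8⟩ | ⟨⟨h6, h7⟩, h8⟩)
          · exact ⟨⟨h6, h7.trans hab⟩, h8⟩
          · exact ⟨⟨by omega, h7⟩, h8⟩
      · rw [disjoint_left]
        intro n h6 h7
        simp only [mem_filter, mem_Icc, mem_Ioc] at h6 h7
        omega
    exact_mod_cast this
  have hpi : (11 / 20 : ℝ) ≤ 6 / Real.pi ^ 2 := by
    rw [le_div_iff₀ (by positivity)]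
    have h6 := Real.pi_lt_d2
    have h7 := Real.pi_pos
    nlinarith
  have hba : 0 ≤ (b : ℝ) - a := by
    have : (a : ℝ) ≤ b := by exact_mod_cast hab
    linarith
  nlinarith

end Pool.Agent.U585.SK
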