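import Pool.Agent.U585.SK.Cov
import Pool.Agent.U585.SI.Nil2

/-!
# Lipschitz nilsequences
-/

set_option autoImplicit false

open Finset

namespace Pool.Agent.U585.SK

open Pool.Agent.U585.SI (Uni Lat PolySeq reduce reduce_static Bm Bm_uni Bm_bound Bm_diff rg
  grid_approx uni_one)

variable {m q : ℕ}

/-- Lipschitz functions on `U_m(ℝ)/Γ_q` -/
def LipNil (m q : ℕ) (F : Matrix (Fin m) (Fin m) ℝ → ℂ) : Prop :=
  (∀ A γ, Uni A → Lat q γ → F (A * γ) = F A) ∧
    ∀ R : ℝ, ∃ L : ℝ, ∀ (A B : Matrix (Fin m) (Fin m) ℝ) (d : ℝ), Uni A → Uni B →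
      (∀ i j, |A i j| ≤ R) → (∀ i j, |B i j| ≤ R) → (∀ i j, |A i j - B i j| ≤ d) →
      ‖F A - F B‖ ≤ L * d

lemma small_entries {B : Matrix (Fin m) (Fin m) ℝ} (h : Uni B)
    (h4 : ∀ i j, i < j → 0 ≤ B i j ∧ B i j ≤ (q : ℝ)) (i j : Fin m) : |B i j| ≤ q + 1 := by
  rcases lt_trichotomy i j with h5 | h5 | h5
  · have := h4 i j h5
    rw [abs_of_nonneg this.1]
    linarith
  · subst h5
    rw [h.1, abs_one]
    have : (0 : ℝ) ≤ q := by positivity
    linarith
  · rw [h.2 i j h5, abs_zero]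
    positivity

lemma lip_mod (hq : 1 ≤ q) {F : Matrix (Fin m) (Fin m) ℝ → ℂ} (hF : LipNil m q F) :
    ∃ L : ℝ, 0 ≤ L ∧ (∀ B, Uni B → ‖F B‖ ≤ L) ∧
      ∀ (B B' : Matrix (Fin m) (Fin m) ℝ) (β d : ℝ), Uni B → Uni B' →
      0 ≤ β → 0 ≤ d → (∀ i j, |B i j| ≤ β) → (∀ i j, |B' i j - B i j| ≤ d) →
      m * d * (m * β + q + 1) ^ m ≤ 1 → ‖F B' - F B‖ ≤ L * (m * d * (m * β + q + 1) ^ m) := by
  classical
  obtain ⟨L₀, hL₀⟩ := hF.2 (q + 2)
  set L₁ := |L₀| with hL₁
  have hL : ∀ (A B : Matrix (Fin m) (Fin m) ℝ) (d : ℝ), 0 ≤ d → Uni A → Uni B →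
      (∀ i j, |A i j| ≤ (q : ℝ) + 2) → (∀ i j, |B i j| ≤ (q : ℝ) + 2) →
      (∀ i j, |A i j - B i j| ≤ d) → ‖F A - F B‖ ≤ L₁ * d := fun A B d hd hA hB h1 h2 h3 =>
    (hL₀ A B d hA hB h1 h2 h3).trans (mul_le_mul_of_nonneg_right (le_abs_self _) hd)
  have hL₁0 : 0 ≤ L₁ := abs_nonneg _
  have hq0 : (0 : ℝ) ≤ q := by positivity
  refine ⟨L₁ * (q + 2) + ‖F 1‖ + L₁, by positivity, fun B hB => ?_, ?_⟩
  · obtain ⟨β, hβ0, hβ⟩ : ∃ β : ℝ, 0 ≤ β ∧ ∀ i j, |B i j| ≤ β := by
      refine ⟨∑ i, ∑ j, |B i j|, by positivity, fun i j => ?_⟩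
      calc |B i j| ≤ ∑ j, |B i j| :=
            Finset.single_le_sum (f := fun j => |B i j|) (fun _ _ => abs_nonneg _)
              (Finset.mem_univ j)
        _ ≤ _ := Finset.single_le_sum (f := fun i => ∑ j, |B i j|)
            (fun _ _ => Finset.sum_nonneg fun _ _ => abs_nonneg _) (Finset.mem_univ i)
    obtain ⟨γ, h1, -, h3, h4⟩ := reduce_static hq B hB hβ0 hβ
    have h5 := small_entries h3 h4
    have h6 : ∀ i j, |(1 : Matrix (Fin m) (Fin m) ℝ) i j| ≤ 1 := by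
      intro i j
      rw [Matrix.one_apply]
      split_ifs <;> simp
    have h7 := hL (B * γ) 1 (q + 2) (by positivity) h3 uni_one
      (fun i j => (h5 i j).trans (by linarith)) (fun i j => (h6 i j).trans (by linarith))
      (fun i j => (abs_sub _ _).trans ((add_le_add (h5 i j) (h6 i j)).trans (by linarith)))
    rw [← hF.1 B γ hB h1]
    have h8 : ‖F (B * γ)‖ ≤ ‖F (B * γ) - F 1‖ + ‖F 1‖ := by
      have := norm_add_le (F (B * γ) - F 1) (F 1)
      simpa using this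
    linarith
  · intro B B' β d hB hB' hβ0 hd0 hβ hd hρ
    obtain ⟨γ, h1, h2, h3, h4⟩ := reduce_static hq B hB hβ0 hβ
    have hUB' : Uni (B' * γ) := hB'.mul h1.1
    have hdiff : ∀ i j, |(B' * γ) i j - (B * γ) i j| ≤ m * d * (m * β + q + 1) ^ m := by
      intro i j
      rw [Matrix.mul_apply, Matrix.mul_apply, ← Finset.sum_sub_distrib]
      refine (Finset.abs_sum_le_sum_abs _ _).trans ?_
      calc ∑ k, |B' i k * γ k j - B i k * γ k j| ≤ ∑ _k : Fin m, d * (m * β + q + 1) ^ m := by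
            refine Finset.sum_le_sum fun k _ => ?_
            rw [← sub_mul, abs_mul]
            exact mul_le_mul (hd i k) (h2 k j) (abs_nonneg _) hd0
        _ = _ := by
            rw [Finset.sum_const, nsmul_eq_mul, Finset.card_univ, Fintype.card_fin]
            ring
    have h5 := small_entries h3 h4
    have h6 : ∀ i j, |(B' * γ) i j| ≤ q + 2 := by
      intro i j
      have h7 : |(B' * γ) i j| ≤ |(B' * γ) i j - (B * γ) i j| + |(B * γ) i j| := by
        have := abs_add_le ((B' * γ) i j - (B * γ) i j) ((B * γ) i j)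
        simpa using this
      have h8 := h5 i j
      have h9 := (hdiff i j).trans hρ
      linarith
    have h10 := hL (B' * γ) (B * γ) _ (by positivity) hUB' h3 h6
      (fun i j => (h5 i j).trans (by linarith)) hdiff
    rw [hF.1 B' γ hB' h1, hF.1 B γ hB h1] at h10
    refine h10.trans (mul_le_mul_of_nonneg_right ?_ (by positivity))
    have : 0 ≤ L₁ * (q + 2) + ‖F 1‖ := by positivity
    linarith

/-- the nilsequences given by a function -/
def Ns (m D : ℕ) (F : Matrix (Fin m) (Fin m) ℝ → ℂ) (_N : ℕ) : Set (ℕ → ℂ) :=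
  {v | ∃ A, PolySeq m D A ∧ v = fun n => F (A n)}

theorem cov_Ns (D : ℕ) (hq : 1 ≤ q) {F : Matrix (Fin m) (Fin m) ℝ → ℂ} (hF : LipNil m q F) :
    Cov (Ns m D F) := by
  classical
  obtain ⟨L, hL0, hL1, hL2⟩ := lip_mod hq hF
  set E := m * D with hE
  set G : ℕ := m * (1 + (E + 1) * q) + q + 1 with hG
  set M : ℕ := m * (E + 1) * q * G ^ m + 1 with hM
  set κ := E + E * m + 1 with hκ
  set c := (E + 1) * m * m with hc
  have hcardR : ∀ N : ℕ, 1 ≤ N → (((M * (N + 1) ^ κ + 1) ^ c : ℕ) : ℝ) ≤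
      ((2 * M * 2 ^ κ : ℕ) : ℝ) ^ c * (N : ℝ) ^ (κ * c) := by
    intro N hN
    have h1 : M * (N + 1) ^ κ + 1 ≤ 2 * M * 2 ^ κ * N ^ κ := by
      have h2 : (N + 1) ^ κ ≤ (2 * N) ^ κ := Nat.pow_le_pow_left (by omega) κ
      have h3 : 1 ≤ (N + 1) ^ κ := Nat.one_le_pow _ _ (by omega)
      have h4 : 1 ≤ M := by omega
      calc M * (N + 1) ^ κ + 1 ≤ M * (N + 1) ^ κ + M * (N + 1) ^ κ :=
            Nat.add_le_add_left (Nat.one_le_iff_ne_zero.2 (by positivity)) _
        _ = 2 * M * (N + 1) ^ κ := by ring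
        _ ≤ 2 * M * (2 * N) ^ κ := Nat.mul_le_mul_left _ h2
        _ = _ := by rw [mul_pow]; ring
    have h5 := Nat.pow_le_pow_left h1 c
    have h6 : (2 * M * 2 ^ κ * N ^ κ) ^ c = (2 * M * 2 ^ κ) ^ c * N ^ (κ * c) := by
      rw [mul_pow, ← pow_mul]
    rw [h6] at h5
    exact_mod_cast h5
  refine ⟨κ * c, ((2 * M * 2 ^ κ : ℕ) : ℝ) ^ c + L, fun N =>
    (Finset.univ : Finset (Fin m → Fin m → Fin (E + 1) → Fin (M * (N + 1) ^ κ + 1))).image
      fun a n => F (Bm E (rg m q E (M * (N + 1) ^ κ) a) n), ?_, ?_, ?_⟩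
  · intro N hN
    have h1 : ((Finset.univ : Finset (Fin m → Fin m → Fin (E + 1) →
        Fin (M * (N + 1) ^ κ + 1))).image
        fun a n => F (Bm E (rg m q E (M * (N + 1) ^ κ) a) n)).card ≤
          (M * (N + 1) ^ κ + 1) ^ c := by
      refine Finset.card_image_le.trans (le_of_eq ?_)
      rw [Finset.card_univ]
      simp only [Fintype.card_pi, Fintype.card_fin, Finset.prod_const, Finset.card_univ]
      rw [← pow_mul, ← pow_mul, hc, mul_assoc]
    refine le_trans (by exact_mod_cast h1) ((hcardR N hN).trans ?_)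
    exact mul_le_mul_of_nonneg_right (by linarith) (by positivity)
  · intro N hN w hw n hn
    obtain ⟨a, _, rfl⟩ := Finset.mem_image.1 hw
    refine (hL1 _ (Bm_uni _ _ _)).trans ?_
    have : 0 ≤ ((2 * M * 2 ^ κ : ℕ) : ℝ) ^ c := by positivity
    linarith
  · rintro N hN v ⟨A, hA, rfl⟩
    obtain ⟨r, hr1, hr2⟩ := reduce hq A hA.1 hA.2
    have hT1 : 1 ≤ M * (N + 1) ^ κ := Nat.one_le_iff_ne_zero.2 (by positivity)
    obtain ⟨a, ha⟩ := grid_approx (E := E) hT1 hq hr1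
    refine ⟨_, Finset.mem_image_of_mem _ (Finset.mem_univ a), fun n hn => ?_⟩
    rw [mem_Icc] at hn
    simp only
    obtain ⟨γ, hγ, hAγ⟩ := hr2 n
    have e1 : F (A n) = F (Bm E r n) := by
      rw [← hF.1 (A n) γ (hA.1 n) hγ, hAγ]
    rw [e1, norm_sub_rev]
    have hN0 : (0 : ℝ) < N := by exact_mod_cast hN
    have hN1 : (1 : ℝ) ≤ (N + 1 : ℕ) := by push_cast; linarith
    set X : ℝ := ((N + 1 : ℕ) : ℝ) with hX
    set T : ℝ := ((M * (N + 1) ^ κ : ℕ) : ℝ) with hT
    have hT0 : 0 < T := by rw [hT]; exact_mod_cast hT1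
    set β : ℝ := 1 + (E + 1) * q * X ^ E with hβ
    set d : ℝ := (E + 1) * ((q : ℝ) / T) * X ^ E with hd
    have hX0 : 0 < X := by linarith
    have hβ0 : 0 ≤ β := by rw [hβ]; positivity
    have hd0 : 0 ≤ d := by rw [hd]; positivity
    have hprod : (m : ℝ) * d * (m * β + q + 1) ^ m ≤ 1 / X := by
      have hE1 : (1 : ℝ) ≤ X ^ E := one_le_pow₀ hN1
      have h3 : (m : ℝ) * β + q + 1 ≤ G * X ^ E := by
        rw [hβ, hG]
        push_cast
        have h4 : (m : ℝ) ≤ m * X ^ E := le_mul_of_one_le_right (by positivity) hE1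
        have h5 : (q : ℝ) ≤ q * X ^ E := le_mul_of_one_le_right (by positivity) hE1
        nlinarith
      have h4 : ((m : ℝ) * β + q + 1) ^ m ≤ (G : ℝ) ^ m * X ^ (E * m) := by
        calc _ ≤ ((G : ℝ) * X ^ E) ^ m := pow_le_pow_left₀ (by positivity) h3 m
          _ = _ := by rw [mul_pow, ← pow_mul]
      have hTe : T = M * X ^ κ := by rw [hT, hX]; push_cast; ring
      have hM0 : (0 : ℝ) < M := by rw [hM]; push_cast; positivity
      calc (m : ℝ) * d * (m * β + q + 1) ^ m ≤ m * d * ((G : ℝ) ^ m * X ^ (E * m)) :=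
            mul_le_mul_of_nonneg_left h4 (by positivity)
        _ = (m * (E + 1) * q * (G : ℝ) ^ m) * X ^ (E + E * m) / T := by
            rw [hd, pow_add]
            ring
        _ ≤ M * X ^ (E + E * m) / T := by
            refine div_le_div_of_nonneg_right ?_ hT0.le
            refine mul_le_mul_of_nonneg_right ?_ (by positivity)
            rw [hM]
            push_cast
            linarith
        _ = 1 / X := by
            rw [hTe, hκ, pow_succ]
            field_simp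
    have hX1 : 1 / X ≤ 1 / N := by
      refine one_div_le_one_div_of_le hN0 ?_
      rw [hX]; push_cast; linarith
    have hXle : 1 / X ≤ 1 := by
      rw [div_le_one hX0]; exact hN1
    have h7 := hL2 (Bm E r n) (Bm E (rg m q E (M * (N + 1) ^ κ) a) n) β d (Bm_uni _ _ _)
      (Bm_uni _ _ _) hβ0 hd0 (fun i j => Bm_bound hr1 (show n < N + 1 by omega) i j)
      (fun i j => Bm_diff (fun i j k hk => ha i j k hk) (show n < N + 1 by omega) i j
        (by positivity)) (hprod.trans hXle)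
    refine h7.trans ?_
    calc L * (m * d * (m * β + q + 1) ^ m) ≤ L * (1 / N) :=
          mul_le_mul_of_nonneg_left (hprod.trans hX1) hL0
      _ ≤ (((2 * M * 2 ^ κ : ℕ) : ℝ) ^ c + L) * (1 / N) := by
          refine mul_le_mul_of_nonneg_right ?_ (by positivity)
          have : 0 ≤ ((2 * M * 2 ^ κ : ℕ) : ℝ) ^ c := by positivity
          linarith
      _ = _ := by ring

end Pool.Agent.U585.SK
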