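import Pool.Agent.U585.SK.Cov

/-!
# Polynomial phases
-/

set_option autoImplicit false

open Finset

namespace Pool.Agent.U585.SK

/-- the sequences `n^(it) e(Q(n))` with `|t| ≤ N^A` and `deg Q ≤ D` -/
def Ph (D A : ℕ) (N : ℕ) : Set (ℕ → ℂ) :=
  {v | ∃ (Q : Polynomial ℝ) (t : ℝ), Q.natDegree ≤ D ∧ |t| ≤ (N : ℝ) ^ A ∧
    v = fun n : ℕ =>
      Complex.exp (((t * Real.log n + 2 * Real.pi * Q.eval (n : ℝ) : ℝ) : ℂ) * Complex.I)}

lemma exp_diff (x y : ℝ) :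
    ‖Complex.exp ((x : ℂ) * Complex.I) - Complex.exp ((y : ℂ) * Complex.I)‖ ≤ |x - y| := by
  have h1 : Complex.exp ((x : ℂ) * Complex.I) - Complex.exp ((y : ℂ) * Complex.I) =
      Complex.exp ((y : ℂ) * Complex.I) * (Complex.exp (Complex.I * ((x - y : ℝ) : ℂ)) - 1) := by
    rw [mul_sub, mul_one, ← Complex.exp_add]
    congr 2
    push_cast
    ring
  rw [h1, norm_mul, Complex.norm_exp_ofReal_mul_I, one_mul]
  have := Real.norm_exp_I_mul_ofReal_sub_one_le (x := x - y)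
  rwa [Real.norm_eq_abs] at this

/-- integers in the phase do not matter -/
lemma exp_int (x : ℝ) (z : ℤ) :
    Complex.exp (((x + 2 * Real.pi * z : ℝ) : ℂ) * Complex.I) =
      Complex.exp ((x : ℂ) * Complex.I) := by
  have : (((x + 2 * Real.pi * z : ℝ) : ℂ) * Complex.I) =
      (x : ℂ) * Complex.I + z * (2 * Real.pi * Complex.I) := by
    push_cast
    ring
  rw [this, Complex.exp_periodic.int_mul z]

theorem cov_Ph (D A : ℕ) : Cov (Ph D A) := by
  classical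
  set g : (Σ' N : ℕ, (Fin (D + 1) → Fin (N ^ (D + 1))) × ℤ) → ℕ → ℂ := fun z n =>
    Complex.exp ((((z.2.2 : ℝ) / (z.1 : ℝ) ^ 2 * Real.log n +
      2 * Real.pi * ∑ k : Fin (D + 1), ((z.2.1 k : ℕ) : ℝ) / (z.1 : ℝ) ^ (D + 1) *
        (n : ℝ) ^ (k : ℕ) : ℝ) : ℂ) * Complex.I) with hg
  refine ⟨(D + 1) * (D + 1) + (A + 2), 7 + 7 * (D + 1), fun N =>
    ((univ : Finset (Fin (D + 1) → Fin (N ^ (D + 1)))) ×ˢ
      Icc (-((N : ℤ) ^ (A + 2) + 1)) ((N : ℤ) ^ (A + 2) + 1)).image fun z => g ⟨N, z⟩, ?_, ?_, ?_⟩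
  · intro N hN
    have hN1 : (1 : ℝ) ≤ N := by exact_mod_cast hN
    have h1 : (((univ : Finset (Fin (D + 1) → Fin (N ^ (D + 1)))) ×ˢ
        Icc (-((N : ℤ) ^ (A + 2) + 1)) ((N : ℤ) ^ (A + 2) + 1)).image fun z => g ⟨N, z⟩).card ≤
        (N ^ (D + 1)) ^ (D + 1) * (2 * N ^ (A + 2) + 3) := by
      refine card_image_le.trans (le_of_eq ?_)
      rw [card_product, card_univ, Fintype.card_pi]
      simp only [Fintype.card_fin, prod_const, card_univ, Int.card_Icc]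
      congr 1
      have : (N : ℤ) ^ (A + 2) + 1 + 1 - -((N : ℤ) ^ (A + 2) + 1) =
          ((2 * N ^ (A + 2) + 3 : ℕ) : ℤ) := by
        push_cast
        ring
      rw [this, Int.toNat_natCast]
    have h2 : (1 : ℝ) ≤ (N : ℝ) ^ (A + 2) := one_le_pow₀ hN1
    calc ((((univ : Finset (Fin (D + 1) → Fin (N ^ (D + 1)))) ×ˢ
        Icc (-((N : ℤ) ^ (A + 2) + 1)) ((N : ℤ) ^ (A + 2) + 1)).image fun z => g ⟨N, z⟩).card : ℝ)
        ≤ ((N : ℝ) ^ (D + 1)) ^ (D + 1) * (2 * (N : ℝ) ^ (A + 2) + 3) := by exact_mod_cast h1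
      _ ≤ ((N : ℝ) ^ (D + 1)) ^ (D + 1) * (5 * (N : ℝ) ^ (A + 2)) := by
          refine mul_le_mul_of_nonneg_left (by linarith) (by positivity)
      _ = 5 * (N : ℝ) ^ ((D + 1) * (D + 1) + (A + 2)) := by ring
      _ ≤ _ := by
          refine mul_le_mul_of_nonneg_right ?_ (by positivity)
          have : (0 : ℝ) ≤ D := Nat.cast_nonneg _
          linarith
  · intro N hN w hw n hn
    obtain ⟨z, _, rfl⟩ := mem_image.1 hw
    rw [hg]
    simp only
    rw [Complex.norm_exp_ofReal_mul_I]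
    have : (0 : ℝ) ≤ D := Nat.cast_nonneg _
    linarith
  · rintro N hN v ⟨Q, t, hQ, ht, rfl⟩
    have hN1 : (1 : ℝ) ≤ N := by exact_mod_cast hN
    have hN0 : (0 : ℝ) < N := by linarith
    set T : ℕ := N ^ (D + 1) with hT
    have hT1 : 1 ≤ T := Nat.one_le_pow _ _ hN
    have hT0 : (0 : ℝ) < (N : ℝ) ^ (D + 1) := by positivity
    have hfl : ∀ k : ℕ, ⌊Int.fract (Q.coeff k) * (N : ℝ) ^ (D + 1)⌋₊ < T := by
      intro k
      rw [Nat.floor_lt (by have := Int.fract_nonneg (Q.coeff k); positivity)]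
      have h1 := Int.fract_lt_one (Q.coeff k)
      rw [hT]
      push_cast
      nlinarith
    set a : Fin (D + 1) → Fin T := fun k =>
      ⟨⌊Int.fract (Q.coeff k) * (N : ℝ) ^ (D + 1)⌋₊, hfl k⟩ with ha
    set z : ℤ := ⌊t * (N : ℝ) ^ 2⌋ with hz
    have hz1 := Int.floor_le (t * (N : ℝ) ^ 2)
    have hz2 := Int.lt_floor_add_one (t * (N : ℝ) ^ 2)
    rw [← hz] at hz1 hz2
    have htN : |t * (N : ℝ) ^ 2| ≤ (N : ℝ) ^ (A + 2) := by
      rw [abs_mul, abs_of_nonneg (by positivity : (0 : ℝ) ≤ (N : ℝ) ^ 2), pow_add]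
      exact mul_le_mul_of_nonneg_right ht (by positivity)
    have hzmem : z ∈ Icc (-((N : ℤ) ^ (A + 2) + 1)) ((N : ℤ) ^ (A + 2) + 1) := by
      rw [mem_Icc]
      have h3 := abs_le.1 htN
      constructor
      · have : (-((N : ℝ) ^ (A + 2) + 1)) ≤ z := by linarith [h3.1]
        exact_mod_cast this
      · have : (z : ℝ) ≤ (N : ℝ) ^ (A + 2) + 1 := by linarith [h3.2]
        exact_mod_cast this
    refine ⟨g ⟨N, (a, z)⟩, mem_image.2 ⟨(a, z), mem_product.2 ⟨mem_univ _, hzmem⟩, rfl⟩, ?_⟩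
    intro n hn
    rw [mem_Icc] at hn
    have hn1 : (1 : ℝ) ≤ n := by exact_mod_cast hn.1
    have hnN : (n : ℝ) ≤ N := by exact_mod_cast hn.2
    -- the polynomial modulo the integers
    have e1 : Q.eval (n : ℝ) = (∑ k : Fin (D + 1), Int.fract (Q.coeff k) * (n : ℝ) ^ (k : ℕ)) +
        ((∑ k : Fin (D + 1), ⌊Q.coeff k⌋ * (n : ℤ) ^ (k : ℕ) : ℤ) : ℝ) := by
      rw [Polynomial.eval_eq_sum_range' (n := D + 1) (by omega), ← Fin.sum_univ_eq_sum_range
        (fun k => Q.coeff k * (n : ℝ) ^ k)]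
      push_cast
      rw [← sum_add_distrib]
      refine sum_congr rfl fun k _ => ?_
      rw [← add_mul, Int.fract_add_floor]
    have e2 : t * Real.log n + 2 * Real.pi * Q.eval (n : ℝ) = (t * Real.log n + 2 * Real.pi *
        ∑ k : Fin (D + 1), Int.fract (Q.coeff k) * (n : ℝ) ^ (k : ℕ)) + 2 * Real.pi *
        ((∑ k : Fin (D + 1), ⌊Q.coeff k⌋ * (n : ℤ) ^ (k : ℕ) : ℤ) : ℝ) := by
      rw [e1]
      ring
    simp only
    rw [e2, exp_int, hg]
    simp only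
    refine (exp_diff _ _).trans ?_
    have h5 : |t - z / (N : ℝ) ^ 2| ≤ 1 / (N : ℝ) ^ 2 := by
      have hN2 : (0 : ℝ) < (N : ℝ) ^ 2 := by positivity
      rw [abs_le]
      constructor
      · have : (z : ℝ) / (N : ℝ) ^ 2 ≤ t := by rw [div_le_iff₀ hN2]; exact hz1
        have : 0 ≤ 1 / (N : ℝ) ^ 2 := by positivity
        linarith
      · have : t ≤ ((z : ℝ) + 1) / (N : ℝ) ^ 2 := by rw [le_div_iff₀ hN2]; exact hz2.le
        rw [add_div] at this
        linarith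
    have h6 : |Real.log n| ≤ N := by
      rw [abs_of_nonneg (Real.log_nonneg hn1)]
      have := Real.log_le_sub_one_of_pos (show (0 : ℝ) < n by linarith)
      linarith
    have h7 : ∀ k : Fin (D + 1), |Int.fract (Q.coeff k) - ((a k : ℕ) : ℝ) / (N : ℝ) ^ (D + 1)| *
        (n : ℝ) ^ (k : ℕ) ≤ 1 / N := by
      intro k
      have h8 : |Int.fract (Q.coeff k) - ((a k : ℕ) : ℝ) / (N : ℝ) ^ (D + 1)| ≤
          1 / (N : ℝ) ^ (D + 1) := by
        have h9 : 0 ≤ Int.fract (Q.coeff k) * (N : ℝ) ^ (D + 1) := by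
          have := Int.fract_nonneg (Q.coeff k)
          positivity
        have h10 := Nat.floor_le h9
        have h11 := (Nat.lt_floor_add_one (Int.fract (Q.coeff k) * (N : ℝ) ^ (D + 1))).le
        have h12 : ((a k : ℕ) : ℝ) = (⌊Int.fract (Q.coeff k) * (N : ℝ) ^ (D + 1)⌋₊ : ℝ) := rfl
        rw [h12, abs_le]
        constructor
        · have : (⌊Int.fract (Q.coeff k) * (N : ℝ) ^ (D + 1)⌋₊ : ℝ) / (N : ℝ) ^ (D + 1) ≤
              Int.fract (Q.coeff k) := by rw [div_le_iff₀ hT0]; exact h10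
          have : 0 ≤ 1 / (N : ℝ) ^ (D + 1) := by positivity
          linarith
        · have : Int.fract (Q.coeff k) ≤ ((⌊Int.fract (Q.coeff k) * (N : ℝ) ^ (D + 1)⌋₊ : ℝ) + 1) /
              (N : ℝ) ^ (D + 1) := by rw [le_div_iff₀ hT0]; exact h11
          rw [add_div] at this
          linarith
      have h13 : (n : ℝ) ^ (k : ℕ) ≤ (N : ℝ) ^ D :=
        (pow_le_pow_left₀ (by linarith) hnN _).trans (pow_le_pow_right₀ hN1 (by omega))
      calc _ ≤ 1 / (N : ℝ) ^ (D + 1) * (N : ℝ) ^ D :=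
            mul_le_mul h8 h13 (by positivity) (by positivity)
        _ = 1 / N := by
            rw [pow_succ]
            field_simp
    have e3 : t * Real.log n + 2 * Real.pi *
        (∑ k : Fin (D + 1), Int.fract (Q.coeff k) * (n : ℝ) ^ (k : ℕ)) -
        ((z : ℝ) / (N : ℝ) ^ 2 * Real.log n + 2 * Real.pi *
        ∑ k : Fin (D + 1), ((a k : ℕ) : ℝ) / (N : ℝ) ^ (D + 1) * (n : ℝ) ^ (k : ℕ)) =
        (t - z / (N : ℝ) ^ 2) * Real.log n + 2 * Real.pi *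
        ∑ k : Fin (D + 1), (Int.fract (Q.coeff k) - ((a k : ℕ) : ℝ) / (N : ℝ) ^ (D + 1)) *
          (n : ℝ) ^ (k : ℕ) := by
      have : ∑ k : Fin (D + 1), (Int.fract (Q.coeff k) - ((a k : ℕ) : ℝ) / (N : ℝ) ^ (D + 1)) *
          (n : ℝ) ^ (k : ℕ) = (∑ k : Fin (D + 1), Int.fract (Q.coeff k) * (n : ℝ) ^ (k : ℕ)) -
          ∑ k : Fin (D + 1), ((a k : ℕ) : ℝ) / (N : ℝ) ^ (D + 1) * (n : ℝ) ^ (k : ℕ) := by
        rw [← sum_sub_distrib]
        exact sum_congr rfl fun k _ => by ring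
      rw [this]
      ring
    rw [e3]
    have h14 : |∑ k : Fin (D + 1), (Int.fract (Q.coeff k) - ((a k : ℕ) : ℝ) / (N : ℝ) ^ (D + 1)) *
          (n : ℝ) ^ (k : ℕ)| ≤ (D + 1) * (1 / N) := by
      refine (abs_sum_le_sum_abs _ _).trans ?_
      calc _ ≤ ∑ _k : Fin (D + 1), (1 : ℝ) / N := by
            refine sum_le_sum fun k _ => ?_
            rw [abs_mul, abs_of_nonneg (by positivity : (0 : ℝ) ≤ (n : ℝ) ^ (k : ℕ))]
            exact h7 k
        _ = _ := by rw [sum_const, nsmul_eq_mul, card_univ, Fintype.card_fin]; push_cast; ring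
    refine (abs_add_le _ _).trans ?_
    rw [abs_mul, abs_mul, abs_of_nonneg (by positivity : 0 ≤ 2 * Real.pi)]
    have h15 : |t - z / (N : ℝ) ^ 2| * |Real.log n| ≤ 1 / N := by
      calc _ ≤ 1 / (N : ℝ) ^ 2 * N := mul_le_mul h5 h6 (abs_nonneg _) (by positivity)
        _ = 1 / N := by field_simp
    have h16 : 2 * Real.pi ≤ 7 := by have := Real.pi_lt_d2; linarith
    have hD : (0 : ℝ) ≤ D := Nat.cast_nonneg _
    have hNinv : 0 ≤ 1 / (N : ℝ) := by positivity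
    calc _ ≤ 1 / (N : ℝ) + 7 * ((D + 1) * (1 / N)) :=
          add_le_add h15 (mul_le_mul h16 h14 (abs_nonneg _) (by norm_num))
      _ ≤ 7 * (1 / N) + 7 * ((D + 1) * (1 / N)) := by linarith
      _ = (7 + 7 * (D + 1)) / N := by ring

end Pool.Agent.U585.SK
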