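import Pool.Agent.U585.SK.Lin

/-!
# Families with polynomial covering numbers, in all progressions in all windows
-/

set_option autoImplicit false
set_option linter.unusedSectionVars false

open MeasureTheory Filter Topology ProbabilityTheory Finset

namespace Pool.Agent.U585.SK

open Pool.Agent.U585.GC (Signs rf)

/-- families of sequences (depending on `N`) with a polynomial number of members up to `1/N` -/
def Cov (K : ℕ → Set (ℕ → ℂ)) : Prop :=
  ∃ (B : ℕ) (K₀ : ℝ) (V : ℕ → Finset (ℕ → ℂ)),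
    (∀ N : ℕ, 1 ≤ N → ((V N).card : ℝ) ≤ K₀ * (N : ℝ) ^ B) ∧
    (∀ N : ℕ, 1 ≤ N → ∀ w ∈ V N, ∀ n ∈ Icc 1 N, ‖w n‖ ≤ K₀) ∧
    ∀ N : ℕ, 1 ≤ N → ∀ v ∈ K N, ∃ w ∈ V N, ∀ n ∈ Icc 1 N, ‖v n - w n‖ ≤ K₀ / N

/-- the terms of a progression in a window -/
def pt (a b q r : ℕ) : Finset ℕ := (Ioc a b).filter fun n => n ≡ r [MOD q]

lemma pt_sub {a b q r N : ℕ} (hb : b ≤ N) : pt a b q r ⊆ Icc 1 N := by
  intro n hn
  unfold pt at hn
  rw [mem_filter, mem_Ioc] at hn
  rw [mem_Icc]
  omega

lemma pt_mod {a b q r : ℕ} : pt a b q (r % q) = pt a b q r := by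
  unfold pt
  refine filter_congr fun n _ => ?_
  unfold Nat.ModEq
  rw [Nat.mod_mod]

variable {Ω : Type} [mΩ : MeasurableSpace Ω] {P : Measure Ω} [IsProbabilityMeasure P]
  {f : ℕ → Ω → ℝ}

theorem cov (h : Signs P f) {K : ℕ → Set (ℕ → ℂ)} (hK : Cov K) :
    ∀ᵐ ω ∂P, ∀ ε : ℝ, 0 < ε → ∃ C : ℝ, 0 < C ∧ ∀ N : ℕ, 1 ≤ N → ∀ v ∈ K N,
      ∀ a b q r : ℕ, b ≤ N → 1 ≤ q →
        ‖∑ n ∈ pt a b q r, v n * ((rf (fun p => f p ω) n : ℝ) : ℂ)‖ ≤
          C * (N : ℝ) ^ ε * √((pt a b q r).card) := by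
  classical
  obtain ⟨B, K₀, V, hV1, hV2, hV3⟩ := hK
  have hK₀ : 0 ≤ K₀ := by
    have := hV1 1 le_rfl
    simp only [Nat.cast_one, one_pow, mul_one] at this
    exact (Nat.cast_nonneg _).trans this
  set W : ℕ → Finset (ℕ → ℂ) := fun N =>
    (V N ×ˢ ((range (N + 1) ×ˢ range (N + 1)) ×ˢ (range (N + 1) ×ˢ range (N + 1)))).image
      fun z n => if n ∈ pt z.2.1.1 z.2.1.2 z.2.2.1 z.2.2.2 then z.1 n else 0 with hW
  have hcard : ∀ N : ℕ, 1 ≤ N → ((W N).card : ℝ) ≤ 16 * K₀ * (N : ℝ) ^ (B + 4) := by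
    intro N hN
    have hN1 : (1 : ℝ) ≤ N := by exact_mod_cast hN
    have h1 : (W N).card ≤ (V N).card * (((N + 1) * (N + 1)) * ((N + 1) * (N + 1))) := by
      refine card_image_le.trans (le_of_eq ?_)
      simp [card_product]
    calc ((W N).card : ℝ) ≤ (V N).card * ((((N : ℝ) + 1) * (N + 1)) * ((N + 1) * (N + 1))) := by
          exact_mod_cast h1
      _ ≤ (K₀ * (N : ℝ) ^ B) * (((2 * N) * (2 * N)) * ((2 * N) * (2 * N))) := by
          have h2 : (N : ℝ) + 1 ≤ 2 * N := by linarith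
          have h3 := hV1 N hN
          gcongr
      _ = _ := by ring
  filter_upwards [lin_complex h W (B + 4) (16 * K₀) hcard] with ω hω ε hε
  obtain ⟨C, hC, hω⟩ := hω ε hε
  have hval : ∀ p, f p ω = 1 ∨ f p ω = -1 := fun p => h.val p ω
  refine ⟨C * K₀ + 2 * K₀ + 1, by positivity, fun N hN v hv a b q r hb hq => ?_⟩
  have hN1 : (1 : ℝ) ≤ N := by exact_mod_cast hN
  have hN0 : (0 : ℝ) < N := by linarith
  have hNε : 1 ≤ (N : ℝ) ^ ε := Real.one_le_rpow hN1 hε.le
  obtain ⟨w, hw, hvw⟩ := hV3 N hN v hv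
  set S := pt a b q r with hS
  have hSN : S ⊆ Icc 1 N := pt_sub hb
  have hScard : (S.card : ℝ) ≤ N := by
    have := card_le_card hSN
    rw [Nat.card_Icc] at this
    exact_mod_cast (by omega : S.card ≤ N)
  -- the main estimate
  have hmain : ‖∑ n ∈ S, w n * ((rf (fun p => f p ω) n : ℝ) : ℂ)‖ ≤
      (C * K₀ + K₀) * (N : ℝ) ^ ε * √(S.card) := by
    rcases lt_or_ge N q with hqN | hqN
    · -- at most one term
      have h1 : S.card ≤ 1 := by
        rw [card_le_one]
        intro x hx y hy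
        have hx' := hx
        have hy' := hy
        rw [hS] at hx' hy'
        unfold pt at hx' hy'
        rw [mem_filter, mem_Ioc] at hx' hy'
        have h2 : x ≡ y [MOD q] := hx'.2.trans hy'.2.symm
        unfold Nat.ModEq at h2
        rwa [Nat.mod_eq_of_lt (by omega), Nat.mod_eq_of_lt (by omega)] at h2
      have h2 : ‖∑ n ∈ S, w n * ((rf (fun p => f p ω) n : ℝ) : ℂ)‖ ≤ K₀ * S.card := by
        refine (norm_sum_le _ _).trans ?_
        calc ∑ n ∈ S, ‖w n * ((rf (fun p => f p ω) n : ℝ) : ℂ)‖ ≤ ∑ _n ∈ S, K₀ := by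
              refine sum_le_sum fun n hn => ?_
              rw [norm_mul, Complex.norm_real, Real.norm_eq_abs]
              have h3 := hV2 N hN w hw n (hSN hn)
              have h4 := rf_le hval n
              calc _ ≤ K₀ * 1 := mul_le_mul h3 h4 (abs_nonneg _) hK₀
                _ = _ := mul_one _
          _ = _ := by rw [sum_const, nsmul_eq_mul]; ring
      have h3 : (S.card : ℝ) ≤ √(S.card) := by
        rcases Nat.le_one_iff_eq_zero_or_eq_one.1 h1 with h | h <;> rw [h] <;> simp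
      calc _ ≤ K₀ * S.card := h2
        _ ≤ K₀ * √(S.card) := mul_le_mul_of_nonneg_left h3 hK₀
        _ ≤ (C * K₀ + K₀) * (N : ℝ) ^ ε * √(S.card) := by
            refine mul_le_mul_of_nonneg_right ?_ (Real.sqrt_nonneg _)
            have : K₀ ≤ (C * K₀ + K₀) := by nlinarith
            nlinarith [mul_nonneg hC.le hK₀]
    · rcases le_or_gt a N with haN | haN
      · set c : ℕ → ℂ := fun n => if n ∈ pt a b q (r % q) then w n else 0 with hc
        have hcW : c ∈ W N := by
          rw [hW]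
          refine mem_image.2 ⟨(w, ((a, b), (q, r % q))), ?_, rfl⟩
          have : r % q < q := Nat.mod_lt _ hq
          simp only [mem_product, mem_range]
          exact ⟨hw, ⟨by omega, by omega⟩, by omega, by omega⟩
        have h1 := hω N hN c hcW
        have e1 : ∑ n ∈ Icc 1 N, c n * ((rf (fun p => f p ω) n : ℝ) : ℂ) =
            ∑ n ∈ S, w n * ((rf (fun p => f p ω) n : ℝ) : ℂ) := by
          rw [← sum_subset hSN]
          · refine sum_congr rfl fun n hn => ?_
            rw [hc]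
            simp only
            rw [if_pos (by rw [pt_mod]; exact hn)]
          · intro n _ hn
            rw [hc]
            simp only
            rw [if_neg (by rw [pt_mod]; exact hn), zero_mul]
        have e2 : ∑ n ∈ Icc 1 N, ‖c n‖ ^ 2 ≤ K₀ ^ 2 * S.card := by
          calc ∑ n ∈ Icc 1 N, ‖c n‖ ^ 2 = ∑ n ∈ S, ‖c n‖ ^ 2 := by
                refine (sum_subset hSN fun n _ hn => ?_).symm
                rw [hc]
                simp only
                rw [if_neg (by rw [pt_mod]; exact hn)]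
                simp
            _ ≤ ∑ _n ∈ S, K₀ ^ 2 := by
                refine sum_le_sum fun n hn => ?_
                rw [hc]
                simp only
                rw [if_pos (by rw [pt_mod]; exact hn)]
                exact pow_le_pow_left₀ (norm_nonneg _) (hV2 N hN w hw n (hSN hn)) 2
            _ = _ := by rw [sum_const, nsmul_eq_mul]; ring
        rw [e1] at h1
        refine h1.trans ?_
        have h2 : √(∑ n ∈ Icc 1 N, ‖c n‖ ^ 2) ≤ K₀ * √(S.card) := by
          refine (Real.sqrt_le_sqrt e2).trans (le_of_eq ?_)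
          rw [Real.sqrt_mul (sq_nonneg _), Real.sqrt_sq hK₀]
        calc C * (N : ℝ) ^ ε * √(∑ n ∈ Icc 1 N, ‖c n‖ ^ 2)
            ≤ C * (N : ℝ) ^ ε * (K₀ * √(S.card)) := mul_le_mul_of_nonneg_left h2 (by positivity)
          _ ≤ _ := by
              have : 0 ≤ K₀ * (N : ℝ) ^ ε * √(S.card) := by positivity
              nlinarith
      · have hS0 : S = ∅ := by
          rw [hS]
          unfold pt
          rw [Ioc_eq_empty (by omega), filter_empty]
        rw [hS0]
        simp
  -- the error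
  have herr : ‖∑ n ∈ S, (v n - w n) * ((rf (fun p => f p ω) n : ℝ) : ℂ)‖ ≤ K₀ * √(S.card) := by
    refine (norm_sum_le _ _).trans ?_
    calc ∑ n ∈ S, ‖(v n - w n) * ((rf (fun p => f p ω) n : ℝ) : ℂ)‖ ≤ ∑ _n ∈ S, K₀ / N := by
          refine sum_le_sum fun n hn => ?_
          rw [norm_mul, Complex.norm_real, Real.norm_eq_abs]
          calc _ ≤ K₀ / N * 1 := mul_le_mul (hvw n (hSN hn)) (rf_le hval n) (abs_nonneg _)
                (by positivity)
            _ = _ := mul_one _
      _ = K₀ * (S.card / N) := by rw [sum_const, nsmul_eq_mul]; ring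
      _ ≤ K₀ * √(S.card) := by
          refine mul_le_mul_of_nonneg_left ?_ hK₀
          rcases Nat.eq_zero_or_pos S.card with h0 | h0
          · rw [h0]; simp
          · have h1 : (S.card : ℝ) / N ≤ 1 := by
              rw [div_le_one hN0]; exact hScard
            have h2 : 1 ≤ √(S.card : ℝ) := by
              rw [Real.one_le_sqrt]
              exact_mod_cast h0
            linarith
  have e : ∑ n ∈ S, v n * ((rf (fun p => f p ω) n : ℝ) : ℂ) =
      ∑ n ∈ S, w n * ((rf (fun p => f p ω) n : ℝ) : ℂ) +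
      ∑ n ∈ S, (v n - w n) * ((rf (fun p => f p ω) n : ℝ) : ℂ) := by
    rw [← sum_add_distrib]
    exact sum_congr rfl fun n _ => by ring
  rw [e]
  refine (norm_add_le _ _).trans ((add_le_add hmain herr).trans ?_)
  have h5 : 0 ≤ √(S.card : ℝ) := Real.sqrt_nonneg _
  have h6 : K₀ * √(S.card) ≤ K₀ * (N : ℝ) ^ ε * √(S.card) := by
    refine mul_le_mul_of_nonneg_right ?_ h5
    nlinarith
  have h7 : 0 ≤ (N : ℝ) ^ ε * √(S.card) := by positivity
  nlinarith

end Pool.Agent.U585.SK
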