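import Pool.Agent.U585.SK.Lin

/-!
# Correlations with shifts in progressions
-/

set_option autoImplicit false
set_option linter.unusedSectionVars false

open MeasureTheory Filter Topology ProbabilityTheory Finset

namespace Pool.Agent.U585.SK

open Pool.Agent.U585.GC (Signs rf small_pow)

/-- sequences of growth `n^ε` -/
def Slow (b : ℕ → ℝ) : Prop := ∀ ε : ℝ, 0 < ε → ∃ K : ℝ, ∀ n : ℕ, 1 ≤ n → |b n| ≤ K * (n : ℝ) ^ ε

/-- the terms -/
def tm (y q a : ℕ) : Finset ℕ := (Ico 1 y).filter fun n => n ≡ a [MOD q]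

lemma tm_card {N y q a : ℕ} (hy : y ≤ N) : (tm y q a).card ≤ N / q + 1 := by
  have h1 : (tm y q a).card ≤ (range (N / q + 1)).card := by
    refine card_le_card_of_injOn (fun n => n / q) ?_ ?_
    · intro n hn
      simp only [tm, coe_filter, Set.mem_ofPred_eq, mem_Ico] at hn
      simp only [coe_range, Set.mem_Iio]
      have : n / q ≤ N / q := Nat.div_le_div_right (by omega)
      omega
    · intro x hx z hz hxz
      simp only [tm, coe_filter, Set.mem_ofPred_eq, mem_Ico] at hx hz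
      simp only at hxz
      have h2 : x % q = z % q := hx.2.trans hz.2.symm
      have h3 := Nat.div_add_mod x q
      have h4 := Nat.div_add_mod z q
      rw [← h3, ← h4, hxz, h2]
  simpa using h1

lemma tm_mod {y q a : ℕ} : tm y q (a % q) = tm y q a := by
  unfold tm
  refine filter_congr fun n _ => ?_
  unfold Nat.ModEq
  rw [Nat.mod_mod]

/-- the coefficients of a sum over a finite set, as a linear form -/
noncomputable def co (T : Finset ℕ) (e : ℕ → ℕ) (β : ℕ → ℝ) (m : ℕ) : ℝ :=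
  ∑ n ∈ T.filter (fun n => e n = m), β n

lemma co_sum {T : Finset ℕ} {e : ℕ → ℕ} {β : ℕ → ℝ} {N : ℕ} (he : ∀ n ∈ T, e n ∈ Icc 1 N)
    (φ : ℕ → ℝ) : ∑ m ∈ Icc 1 N, co T e β m * φ m = ∑ n ∈ T, β n * φ (e n) := by
  rw [← sum_fiberwise_of_maps_to he]
  refine sum_congr rfl fun m _ => ?_
  unfold co
  rw [sum_mul]
  refine sum_congr rfl fun n hn => ?_
  rw [(mem_filter.1 hn).2]

lemma co_sq {T : Finset ℕ} {e : ℕ → ℕ} {β : ℕ → ℝ} {N : ℕ} (he : ∀ n ∈ T, e n ∈ Icc 1 N)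
    (hi : Set.InjOn e T) : ∑ m ∈ Icc 1 N, co T e β m ^ 2 = ∑ n ∈ T, β n ^ 2 := by
  rw [← sum_fiberwise_of_maps_to he]
  refine sum_congr rfl fun m _ => ?_
  unfold co
  have h1 : (T.filter fun n => e n = m).card ≤ 1 := by
    rw [card_le_one]
    intro x hx y hy
    rw [mem_filter] at hx hy
    exact hi hx.1 hy.1 (hx.2.trans hy.2.symm)
  rcases Nat.le_one_iff_eq_zero_or_eq_one.1 h1 with h | h
  · rw [card_eq_zero] at h
    rw [h]
    simp
  · obtain ⟨x, hx⟩ := card_eq_one.1 h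
    rw [hx]
    simp

variable {Ω : Type} [mΩ : MeasurableSpace Ω] {P : Measure Ω} [IsProbabilityMeasure P]
  {f : ℕ → Ω → ℝ}

/-- the two shifts -/
def sft (j : Bool) (k n : ℕ) : ℕ := if j then k - n else n + k

/-- the conditions on the shifts -/
def okay (j : Bool) (k y N : ℕ) : Prop := if j then y ≤ k ∧ k ≤ N else y + k ≤ N

lemma sft_mem {j : Bool} {k y N q a : ℕ} (h : okay j k y N) {n : ℕ} (hn : n ∈ tm y q a) :
    sft j k n ∈ Icc 1 N := by
  simp only [tm, mem_filter, mem_Ico] at hn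
  rw [mem_Icc]
  cases j with
  | false => simp only [okay, sft] at *; simp at *; omega
  | true => simp only [okay, sft] at *; simp at *; omega

lemma sft_inj {j : Bool} {k y N q a : ℕ} (h : okay j k y N) :
    Set.InjOn (sft j k) (tm y q a) := by
  intro x hx z hz hxz
  simp only [tm, coe_filter, Set.mem_ofPred_eq, mem_Ico] at hx hz
  cases j with
  | false => simp only [okay, sft] at *; simp at *; omega
  | true => simp only [okay, sft] at *; simp at *; omega

theorem shift (h : Signs P f) {b w : ℕ → ℝ} (hb : Slow b) (hw : Slow w) :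
    ∀ᵐ ω ∂P, ∀ ε : ℝ, 0 < ε → ∃ C : ℝ, 0 < C ∧ ∀ N : ℕ, 1 ≤ N → ∀ (j : Bool) (k y q a : ℕ),
      1 ≤ q → y ≤ N → okay j k y N →
        |∑ n ∈ tm y q a, b n * w (sft j k n) * rf (fun p => f p ω) (sft j k n)| ≤
          C * (N : ℝ) ^ ε * √((N : ℝ) / q + 1) := by
  classical
  set W : ℕ → Finset (ℕ → ℝ) := fun N =>
    ((univ : Finset Bool) ×ˢ ((range (N + 1) ×ˢ range (N + 1)) ×ˢ
      (range (N + 1) ×ˢ range (N + 1)))).image
      fun z => co (tm z.2.1.1 z.2.1.2 z.2.2.1) (sft z.1 z.2.2.2)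
        fun n => b n * w (sft z.1 z.2.2.2 n) with hW
  have hcard : ∀ N : ℕ, 1 ≤ N → ((W N).card : ℝ) ≤ 32 * (N : ℝ) ^ 4 := by
    intro N hN
    have hN1 : (1 : ℝ) ≤ N := by exact_mod_cast hN
    have h1 : (W N).card ≤ 2 * (((N + 1) * (N + 1)) * ((N + 1) * (N + 1))) := by
      refine card_image_le.trans (le_of_eq ?_)
      simp [card_product]
    calc ((W N).card : ℝ) ≤ 2 * ((((N : ℝ) + 1) * (N + 1)) * ((N + 1) * (N + 1))) := by
          exact_mod_cast h1
      _ ≤ 2 * (((2 * N) * (2 * N)) * ((2 * N) * (2 * N))) := by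
          have h2 : (N : ℝ) + 1 ≤ 2 * N := by linarith
          gcongr
      _ = _ := by ring
  filter_upwards [lin_real h W 4 32 hcard] with ω hω ε hε
  obtain ⟨C, hC, hω⟩ := hω (ε / 3) (by linarith)
  obtain ⟨K₁, hK₁⟩ := hb (ε / 3) (by linarith)
  obtain ⟨K₂, hK₂⟩ := hw (ε / 3) (by linarith)
  have hval : ∀ p, f p ω = 1 ∨ f p ω = -1 := fun p => h.val p ω
  set K := |K₁| * |K₂| with hK
  have hK0 : 0 ≤ K := by positivity
  refine ⟨C * K + K + 1, by positivity, fun N hN j k y q a hq hy hok => ?_⟩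
  have hN1 : (1 : ℝ) ≤ N := by exact_mod_cast hN
  have hN0 : (0 : ℝ) < N := by linarith
  set T := tm y q a with hT
  set β : ℕ → ℝ := fun n => b n * w (sft j k n) with hβ
  have hβb : ∀ n ∈ T, |β n| ≤ K * (N : ℝ) ^ (2 * (ε / 3)) := by
    intro n hn
    have h1 := mem_Icc.1 (sft_mem hok hn)
    have h2 : 1 ≤ n ∧ n ≤ N := by
      rw [hT] at hn
      simp only [tm, mem_filter, mem_Ico] at hn
      omega
    have h3 := hK₁ n h2.1
    have h4 := hK₂ (sft j k n) h1.1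
    have h5 : (n : ℝ) ^ (ε / 3) ≤ (N : ℝ) ^ (ε / 3) :=
      Real.rpow_le_rpow (Nat.cast_nonneg _) (by exact_mod_cast h2.2) (by linarith)
    have h6 : ((sft j k n : ℕ) : ℝ) ^ (ε / 3) ≤ (N : ℝ) ^ (ε / 3) :=
      Real.rpow_le_rpow (Nat.cast_nonneg _) (by exact_mod_cast h1.2) (by linarith)
    have h7 : |b n| ≤ |K₁| * (N : ℝ) ^ (ε / 3) := by
      refine h3.trans (mul_le_mul (le_abs_self _) h5 (by positivity) (abs_nonneg _))
    have h8 : |w (sft j k n)| ≤ |K₂| * (N : ℝ) ^ (ε / 3) := by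
      refine h4.trans (mul_le_mul (le_abs_self _) h6 (by positivity) (abs_nonneg _))
    rw [hβ]
    simp only
    rw [abs_mul]
    calc |b n| * |w (sft j k n)| ≤ (|K₁| * (N : ℝ) ^ (ε / 3)) * (|K₂| * (N : ℝ) ^ (ε / 3)) :=
          mul_le_mul h7 h8 (abs_nonneg _) (by positivity)
      _ = _ := by
          rw [hK, two_mul, Real.rpow_add hN0]
          ring
  have hTc : (T.card : ℝ) ≤ (N : ℝ) / q + 1 := by
    have h1 := tm_card (q := q) (a := a) hy
    have h2 : ((N / q : ℕ) : ℝ) ≤ N / q := Nat.cast_div_le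
    have h3 : (T.card : ℝ) ≤ ((N / q : ℕ) : ℝ) + 1 := by exact_mod_cast h1
    linarith
  have hNq : (0 : ℝ) ≤ (N : ℝ) / q + 1 := by positivity
  have h1le : 1 ≤ √((N : ℝ) / q + 1) := by
    rw [Real.one_le_sqrt]
    have : (0 : ℝ) ≤ (N : ℝ) / q := by positivity
    linarith
  have hexp : (N : ℝ) ^ (ε / 3) * (N : ℝ) ^ (2 * (ε / 3)) = (N : ℝ) ^ ε := by
    rw [← Real.rpow_add hN0]
    congr 1
    ring
  have hexp2 : (N : ℝ) ^ (2 * (ε / 3)) ≤ (N : ℝ) ^ ε :=
    Real.rpow_le_rpow_of_exponent_le hN1 (by linarith)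
  have hfin : ∀ x : ℝ, x ≤ (C * K + K) * (N : ℝ) ^ ε * √((N : ℝ) / q + 1) →
      x ≤ (C * K + K + 1) * (N : ℝ) ^ ε * √((N : ℝ) / q + 1) := by
    intro x hx
    refine hx.trans ?_
    have : 0 ≤ (N : ℝ) ^ ε * √((N : ℝ) / q + 1) := by positivity
    nlinarith
  refine hfin _ ?_
  rcases lt_or_ge N q with hqN | hqN
  · -- at most one term
    have h1 : T.card ≤ 1 := by
      have := tm_card (q := q) (a := a) hy
      rwa [Nat.div_eq_of_lt hqN] at this
    calc |∑ n ∈ T, β n * rf (fun p => f p ω) (sft j k n)|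
        ≤ ∑ n ∈ T, |β n * rf (fun p => f p ω) (sft j k n)| := abs_sum_le_sum_abs _ _
      _ ≤ ∑ _n ∈ T, K * (N : ℝ) ^ (2 * (ε / 3)) := by
          refine sum_le_sum fun n hn => ?_
          rw [abs_mul]
          calc |β n| * |rf (fun p => f p ω) (sft j k n)| ≤ (K * (N : ℝ) ^ (2 * (ε / 3))) * 1 :=
                mul_le_mul (hβb n hn) (rf_le hval _) (abs_nonneg _) (by positivity)
            _ = _ := mul_one _
      _ = T.card * (K * (N : ℝ) ^ (2 * (ε / 3))) := by rw [sum_const, nsmul_eq_mul]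
      _ ≤ 1 * (K * (N : ℝ) ^ (2 * (ε / 3))) := by
          refine mul_le_mul_of_nonneg_right ?_ (by positivity)
          exact_mod_cast h1
      _ ≤ (C * K + K) * (N : ℝ) ^ ε * 1 := by
          rw [one_mul, mul_one]
          refine mul_le_mul ?_ hexp2 (by positivity) (by positivity)
          nlinarith [mul_nonneg hC.le hK0]
      _ ≤ _ := mul_le_mul_of_nonneg_left h1le (by positivity)
  · have hkN : k ≤ N := by
      cases j with
      | false => simp [okay] at hok; omega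
      | true => simp [okay] at hok; omega
    have hcW : co T (sft j k) β ∈ W N := by
      rw [hW]
      refine mem_image.2 ⟨(j, ((y, q), (a % q, k))), ?_, ?_⟩
      · have : a % q < q := Nat.mod_lt _ hq
        simp only [mem_product, mem_range, mem_univ, true_and]
        exact ⟨⟨by omega, by omega⟩, by omega, by omega⟩
      · simp only
        rw [tm_mod]
    have h1 := hω N hN _ hcW
    rw [co_sum (fun n hn => sft_mem hok hn), co_sq (fun n hn => sft_mem hok hn) (sft_inj hok)] at h1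
    refine h1.trans ?_
    have h2 : ∑ n ∈ T, β n ^ 2 ≤ (K * (N : ℝ) ^ (2 * (ε / 3))) ^ 2 * ((N : ℝ) / q + 1) := by
      calc ∑ n ∈ T, β n ^ 2 ≤ ∑ _n ∈ T, (K * (N : ℝ) ^ (2 * (ε / 3))) ^ 2 := by
            refine sum_le_sum fun n hn => ?_
            rw [← sq_abs]
            exact pow_le_pow_left₀ (abs_nonneg _) (hβb n hn) 2
        _ = (K * (N : ℝ) ^ (2 * (ε / 3))) ^ 2 * T.card := by
            rw [sum_const, nsmul_eq_mul]; ring
        _ ≤ _ := mul_le_mul_of_nonneg_left hTc (by positivity)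
    have h3 : √(∑ n ∈ T, β n ^ 2) ≤ K * (N : ℝ) ^ (2 * (ε / 3)) * √((N : ℝ) / q + 1) := by
      refine (Real.sqrt_le_sqrt h2).trans (le_of_eq ?_)
      rw [Real.sqrt_mul (sq_nonneg _), Real.sqrt_sq (by positivity)]
    calc C * (N : ℝ) ^ (ε / 3) * √(∑ n ∈ T, β n ^ 2)
        ≤ C * (N : ℝ) ^ (ε / 3) * (K * (N : ℝ) ^ (2 * (ε / 3)) * √((N : ℝ) / q + 1)) :=
          mul_le_mul_of_nonneg_left h3 (by positivity)
      _ = C * K * ((N : ℝ) ^ (ε / 3) * (N : ℝ) ^ (2 * (ε / 3))) * √((N : ℝ) / q + 1) := by ring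
      _ = C * K * (N : ℝ) ^ ε * √((N : ℝ) / q + 1) := by rw [hexp]
      _ ≤ _ := by
          have : 0 ≤ K * (N : ℝ) ^ ε * √((N : ℝ) / q + 1) := by positivity
          nlinarith

/-! ### Euler's function and the sum over the moduli -/

lemma inv_totient (δ : ℝ) (hδ : 0 < δ) : ∃ K : ℝ, 0 < K ∧ ∀ q : ℕ, 1 ≤ q →
    1 / (Nat.totient q : ℝ) ≤ K * (q : ℝ) ^ δ / q := by
  obtain ⟨K, hK, h⟩ := small_pow 2 δ (by norm_num) hδ
  refine ⟨K, by linarith, fun q hq => ?_⟩
  have hq0 : (0 : ℝ) < q := by exact_mod_cast hq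
  have h1 : (Nat.totient q : ℝ) = q * ∏ p ∈ q.primeFactors, (1 - (p : ℝ)⁻¹) := by
    have := Nat.totient_eq_mul_prod_factors q
    have h2 : ((Nat.totient q : ℚ) : ℝ) = ((q * ∏ p ∈ q.primeFactors, (1 - (p : ℚ)⁻¹) : ℚ) : ℝ) := by
      rw [this]
    push_cast at h2
    exact h2
  have h3 : (1 / 2 : ℝ) ^ q.primeFactors.card ≤ ∏ p ∈ q.primeFactors, (1 - (p : ℝ)⁻¹) := by
    rw [← prod_const]
    refine prod_le_prod (fun _ _ => by norm_num) fun p hp => ?_
    have hp2 : (2 : ℝ) ≤ p := by exact_mod_cast (Nat.prime_of_mem_primeFactors hp).two_le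
    have : (p : ℝ)⁻¹ ≤ 2⁻¹ := inv_anti₀ (by norm_num) hp2
    linarith
  have h4 := h q.primeFactors fun p hp => Nat.prime_of_mem_primeFactors hp
  have h5 : ((∏ p ∈ q.primeFactors, p : ℕ) : ℝ) ≤ q := by
    exact_mod_cast Nat.le_of_dvd hq (Nat.prod_primeFactors_dvd q)
  have h6 : (2 : ℝ) ^ q.primeFactors.card ≤ K * (q : ℝ) ^ δ := by
    refine h4.trans (mul_le_mul_of_nonneg_left ?_ (by linarith))
    exact Real.rpow_le_rpow (Nat.cast_nonneg _) h5 hδ.le
  have h7 : (q : ℝ) * (1 / 2) ^ q.primeFactors.card ≤ Nat.totient q := by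
    rw [h1]
    exact mul_le_mul_of_nonneg_left h3 hq0.le
  have h8 : (0 : ℝ) < q * (1 / 2) ^ q.primeFactors.card := by positivity
  calc 1 / (Nat.totient q : ℝ) ≤ 1 / (q * (1 / 2) ^ q.primeFactors.card) :=
        one_div_le_one_div_of_le h8 h7
    _ = 2 ^ q.primeFactors.card / q := by
        rw [one_div_pow]
        field_simp
    _ ≤ _ := div_le_div_of_nonneg_right h6 hq0.le

lemma sum_inv_sqrt (M : ℕ) : ∑ q ∈ Icc 1 M, 1 / √(q : ℝ) ≤ 2 * √(M : ℝ) := by
  induction M with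
  | zero => simp
  | succ M ih =>
    rw [sum_Icc_succ_top (by omega)]
    have hM : (0 : ℝ) ≤ M := Nat.cast_nonneg _
    have h1 : 0 < √((M : ℝ) + 1) := Real.sqrt_pos.2 (by linarith)
    have h2 : √((M : ℝ) + 1) ^ 2 = M + 1 := Real.sq_sqrt (by linarith)
    have h3 : √(M : ℝ) ^ 2 = M := Real.sq_sqrt hM
    have h4 : 0 ≤ √(M : ℝ) := Real.sqrt_nonneg _
    have h5 : √(M : ℝ) ≤ √((M : ℝ) + 1) := Real.sqrt_le_sqrt (by linarith)
    have h6 : 1 / √((M : ℝ) + 1) ≤ 2 * √((M : ℝ) + 1) - 2 * √(M : ℝ) := by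
      rw [div_le_iff₀ h1]
      nlinarith
    push_cast
    linarith

end Pool.Agent.U585.SK
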