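import Pool.Agent.U585.GC.Sum

/-!
# Families of linear forms in the values of a random multiplicative function
-/

set_option autoImplicit false
set_option linter.unusedSectionVars false

open MeasureTheory Filter Topology ProbabilityTheory Finset

namespace Pool.Agent.U585.SK

open Pool.Agent.U585.GC (Signs PN poly hyper poly_pow_int Ck Ck_ge rf small_pow mem_PN)

lemma sqf_prod {T : Finset ℕ} (hT : ∀ p ∈ T, p.Prime) : Squarefree (∏ p ∈ T, p) := by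
  refine Finset.squarefree_prod_of_pairwise_isCoprime (fun p hp q hq hpq => ?_)
    fun p hp => (hT p hp).squarefree
  change IsRelPrime p q
  rw [← Nat.coprime_iff_isRelPrime]
  exact (Nat.coprime_primes (hT p hp) (hT q hq)).2 hpq

/-- sums over sets of primes with a small product are sums over squarefree integers -/
lemma reindex (N : ℕ) (g : ℕ → Finset ℕ → ℝ) :
    ∑ U ∈ (PN N).powerset, (if (∏ p ∈ U, p) ≤ N then g (∏ p ∈ U, p) U else 0) =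
      ∑ n ∈ (Icc 1 N).filter Squarefree, g n n.primeFactors := by
  classical
  rw [← sum_filter]
  have hpr : ∀ U ∈ (PN N).powerset, ∀ p ∈ U, p.Prime := by
    intro U hU p hp
    rw [mem_powerset] at hU
    exact (mem_PN.1 (hU hp)).1
  have hpf : ∀ U ∈ (PN N).powerset, (∏ p ∈ U, p).primeFactors = U := fun U hU =>
    Nat.primeFactors_prod (hpr U hU)
  refine sum_nbij' (fun U => ∏ p ∈ U, p) (fun n => n.primeFactors) ?_ ?_ ?_ ?_ ?_
  · intro U hU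
    rw [mem_filter] at hU
    rw [mem_filter, mem_Icc]
    refine ⟨⟨?_, hU.2⟩, sqf_prod (hpr U hU.1)⟩
    exact Nat.one_le_iff_ne_zero.2 (prod_ne_zero_iff.2 fun p hp => (hpr U hU.1 p hp).ne_zero)
  · intro n hn
    rw [mem_filter, mem_Icc] at hn
    rw [mem_filter, mem_powerset]
    refine ⟨fun p hp => ?_, ?_⟩
    · rw [Nat.mem_primeFactors] at hp
      exact mem_PN.2 ⟨hp.1, (Nat.le_of_dvd hn.1.1 hp.2.1).trans hn.1.2⟩
    · rw [Nat.prod_primeFactors_of_squarefree hn.2]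
      exact hn.1.2
  · intro U hU
    rw [mem_filter] at hU
    exact hpf U hU.1
  · intro n hn
    rw [mem_filter] at hn
    exact Nat.prod_primeFactors_of_squarefree hn.2
  · intro U hU
    rw [mem_filter] at hU
    rw [hpf U hU.1]

/-- coefficients of the polynomial of a linear form -/
noncomputable def ac (c : ℕ → ℝ) (N : ℕ) (U : Finset ℕ) : ℝ :=
  if (∏ p ∈ U, p) ≤ N then c (∏ p ∈ U, p) else 0

lemma lin_eq (c : ℕ → ℝ) (N : ℕ) (s : ℕ → ℝ) :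
    ∑ n ∈ Icc 1 N, c n * rf s n = poly (PN N) (ac c N) s := by
  classical
  have h1 := reindex N fun n U => c n * ∏ p ∈ U, s p
  have h2 : poly (PN N) (ac c N) s = ∑ U ∈ (PN N).powerset,
      (if (∏ p ∈ U, p) ≤ N then c (∏ p ∈ U, p) * ∏ p ∈ U, s p else 0) := by
    unfold poly ac
    refine sum_congr rfl fun U _ => ?_
    split_ifs <;> simp
  rw [h2, h1, sum_filter]
  refine sum_congr rfl fun n _ => ?_
  unfold rf
  split_ifs <;> simp

lemma sq_le (c : ℕ → ℝ) (N : ℕ) (A δ K : ℝ) (hA : 1 ≤ A) (hδ : 0 ≤ δ) (hK : 0 ≤ K)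
    (hKA : ∀ U : Finset ℕ, (∀ p ∈ U, p.Prime) → A ^ U.card ≤ K * ((∏ p ∈ U, p : ℕ) : ℝ) ^ δ) :
    ∑ U ∈ (PN N).powerset, A ^ U.card * ac c N U ^ 2 ≤
      K * (N : ℝ) ^ δ * ∑ n ∈ Icc 1 N, c n ^ 2 := by
  classical
  have h1 := reindex N fun n _ => c n ^ 2
  calc ∑ U ∈ (PN N).powerset, A ^ U.card * ac c N U ^ 2
      ≤ ∑ U ∈ (PN N).powerset, K * (N : ℝ) ^ δ *
          (if (∏ p ∈ U, p) ≤ N then c (∏ p ∈ U, p) ^ 2 else 0) := by
        refine sum_le_sum fun U hU => ?_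
        unfold ac
        split_ifs with h
        · refine mul_le_mul_of_nonneg_right ?_ (sq_nonneg _)
          have hpr : ∀ p ∈ U, p.Prime := by
            intro p hp
            rw [mem_powerset] at hU
            exact (mem_PN.1 (hU hp)).1
          refine (hKA U hpr).trans (mul_le_mul_of_nonneg_left ?_ hK)
          exact Real.rpow_le_rpow (Nat.cast_nonneg _) (by exact_mod_cast h) hδ
        · simp
    _ = K * (N : ℝ) ^ δ * ∑ n ∈ (Icc 1 N).filter Squarefree, c n ^ 2 := by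
        rw [← mul_sum, h1]
    _ ≤ _ := by
        refine mul_le_mul_of_nonneg_left ?_ (by positivity)
        exact sum_le_sum_of_subset_of_nonneg (filter_subset _ _) fun n _ _ => sq_nonneg _

variable {Ω : Type} [mΩ : MeasurableSpace Ω] {P : Measure Ω} [IsProbabilityMeasure P]
  {f : ℕ → Ω → ℝ}

/-- large deviations of a linear form -/
theorem dev (h : Signs P f) (ε : ℝ) (hε : 0 < ε) (m : ℕ) : ∃ K : ℝ, 0 < K ∧
    ∀ (N : ℕ) (c : ℕ → ℝ), 1 ≤ N →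
      P.real {ω | (N : ℝ) ^ ε * √(∑ n ∈ Icc 1 N, c n ^ 2) <
        |∑ n ∈ Icc 1 N, c n * rf (fun p => f p ω) n|} ≤ K / (N : ℝ) ^ m := by
  obtain ⟨k, hk⟩ := exists_nat_gt (m / ε)
  set k' := k + 1 with hk'
  have hk1 : 1 ≤ k' := by omega
  have hkm : (m : ℝ) ≤ ε * k' := by
    rw [div_lt_iff₀ hε] at hk
    rw [hk']
    push_cast
    nlinarith
  obtain ⟨K, hK, hb⟩ := small_pow (Ck k') ε (Ck_ge k') hε
  have hK0 : 0 < K := by linarith
  refine ⟨K ^ k', by positivity, fun N c hN => ?_⟩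
  have hN1 : (1 : ℝ) ≤ N := by exact_mod_cast hN
  have hN0 : (0 : ℝ) < N := by linarith
  set B := ∑ n ∈ Icc 1 N, c n ^ 2 with hB
  have hB0 : 0 ≤ B := sum_nonneg fun n _ => sq_nonneg _
  simp_rw [lin_eq]
  set Y : Ω → ℝ := fun ω => poly (PN N) (ac c N) (fun p => f p ω) with hY
  rcases hB0.eq_or_lt with hB00 | hB0
  · -- all coefficients vanish
    have hc : ∀ n ∈ Icc 1 N, c n = 0 := by
      intro n hn
      have := (sum_eq_zero_iff_of_nonneg fun n _ => sq_nonneg (c n)).1 hB00.symm n hn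
      simpa using this
    have h0 : {ω | (N : ℝ) ^ ε * √B < |Y ω|} = ∅ := by
      ext ω
      simp only [Set.mem_ofPred_eq, Set.mem_empty_iff_false, iff_false, not_lt]
      have : Y ω = 0 := by
        rw [hY]
        simp only
        rw [← lin_eq]
        exact sum_eq_zero fun n hn => by rw [hc n hn, zero_mul]
      rw [this, abs_zero]
      positivity
    change P.real {ω | (N : ℝ) ^ ε * √B < |Y ω|} ≤ _
    rw [h0, measureReal_empty]
    positivity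
  have h1 : ∫ ω, Y ω ^ (2 * k') ∂P ≤ (K * (N : ℝ) ^ ε * B) ^ k' := by
    refine (hyper h k' hk1 (PN N) (ac c N)).trans ?_
    refine pow_le_pow_left₀ ?_ (sq_le c N (Ck k') ε K (Ck_ge k') hε.le hK0.le hb) k'
    have := Ck_ge k'
    exact Finset.sum_nonneg fun U _ => by positivity
  set lam := ((N : ℝ) ^ ε * √B) ^ (2 * k') with hlam
  have hlam0 : 0 < lam := by positivity
  have hlam1 : lam = ((N : ℝ) ^ ε * (N : ℝ) ^ ε * B) ^ k' := by
    rw [hlam, pow_mul]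
    congr 1
    rw [mul_pow, Real.sq_sqrt hB0.le]
    ring
  have h2 := mul_meas_ge_le_integral_of_nonneg (μ := P) (f := fun ω => Y ω ^ (2 * k'))
    (ae_of_all _ fun ω => by
      simp only [Pi.zero_apply]
      rw [pow_mul]; positivity) (poly_pow_int h _ _ _) lam
  have h3 : P.real {ω | (N : ℝ) ^ ε * √B < |Y ω|} ≤ P.real {ω | lam ≤ Y ω ^ (2 * k')} := by
    refine measureReal_mono ?_
    intro ω hω
    rw [Set.mem_ofPred_eq] at hω ⊢
    have : lam ≤ |Y ω| ^ (2 * k') := pow_le_pow_left₀ (by positivity) hω.le _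
    rwa [pow_mul |Y ω|, sq_abs, ← pow_mul] at this
  have h4 : P.real {ω | lam ≤ Y ω ^ (2 * k')} ≤ (K * (N : ℝ) ^ ε * B) ^ k' / lam := by
    rw [le_div_iff₀ hlam0, mul_comm]
    exact h2.trans h1
  refine h3.trans (h4.trans ?_)
  rw [hlam1, ← div_pow]
  have h5 : K * (N : ℝ) ^ ε * B / ((N : ℝ) ^ ε * (N : ℝ) ^ ε * B) = K / (N : ℝ) ^ ε := by
    have : (N : ℝ) ^ ε ≠ 0 := (Real.rpow_pos_of_pos hN0 ε).ne'
    field_simp
  rw [h5, div_pow]
  refine div_le_div_of_nonneg_left (by positivity) (by positivity) ?_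
  rw [← Real.rpow_natCast ((N : ℝ) ^ ε) k', ← Real.rpow_mul hN0.le, ← Real.rpow_natCast (N : ℝ) m]
  exact Real.rpow_le_rpow_of_exponent_le hN1 hkm

lemma rf_le {s : ℕ → ℝ} (hs : ∀ p, s p = 1 ∨ s p = -1) (n : ℕ) : |rf s n| ≤ 1 := by
  unfold rf
  split_ifs
  · rw [abs_prod]
    refine le_of_eq (prod_eq_one fun p _ => ?_)
    rcases hs p with h | h <;> rw [h] <;> simp
  · simp

/-- the trivial bound -/
lemma triv {s : ℕ → ℝ} (hs : ∀ p, s p = 1 ∨ s p = -1) (N : ℕ) (c : ℕ → ℝ) :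
    |∑ n ∈ Icc 1 N, c n * rf s n| ≤ √N * √(∑ n ∈ Icc 1 N, c n ^ 2) := by
  have h1 : (∑ n ∈ Icc 1 N, c n * rf s n) ^ 2 ≤ (∑ n ∈ Icc 1 N, c n ^ 2) *
      ∑ n ∈ Icc 1 N, rf s n ^ 2 := sum_mul_sq_le_sq_mul_sq _ _ _
  have h2 : ∑ n ∈ Icc 1 N, rf s n ^ 2 ≤ N := by
    calc ∑ n ∈ Icc 1 N, rf s n ^ 2 ≤ ∑ _n ∈ Icc 1 N, (1 : ℝ) := by
          refine sum_le_sum fun n _ => ?_
          rw [← sq_abs]
          exact pow_le_one₀ (abs_nonneg _) (rf_le hs n)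
      _ = N := by simp
  have h3 : 0 ≤ ∑ n ∈ Icc 1 N, c n ^ 2 := sum_nonneg fun n _ => sq_nonneg _
  rw [← Real.sqrt_sq_eq_abs, ← Real.sqrt_mul (Nat.cast_nonneg _)]
  refine Real.sqrt_le_sqrt (h1.trans ?_)
  rw [mul_comm]
  exact mul_le_mul_of_nonneg_right h2 h3

/-- families of polynomial size: almost surely all but finitely many are small -/
theorem ev_small (h : Signs P f) (W : ℕ → Finset (ℕ → ℝ)) (B : ℕ) (K₀ : ℝ)
    (hW : ∀ N, 1 ≤ N → ((W N).card : ℝ) ≤ K₀ * (N : ℝ) ^ B) (ε : ℝ) (hε : 0 < ε) :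
    ∀ᵐ ω ∂P, ∀ᶠ N : ℕ in atTop, ∀ c ∈ W N,
      |∑ n ∈ Icc 1 N, c n * rf (fun p => f p ω) n| ≤ (N : ℝ) ^ ε * √(∑ n ∈ Icc 1 N, c n ^ 2) := by
  classical
  obtain ⟨K, hK, hdev⟩ := dev h ε hε (B + 2)
  have hK₀ : 0 ≤ K₀ := by
    have := hW 1 le_rfl
    simp only [Nat.cast_one, one_pow, mul_one] at this
    exact (Nat.cast_nonneg _).trans this
  set E : ℕ → (ℕ → ℝ) → Set Ω := fun N c => {ω | (N : ℝ) ^ ε * √(∑ n ∈ Icc 1 N, c n ^ 2) <
    |∑ n ∈ Icc 1 N, c n * rf (fun p => f p ω) n|} with hE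
  set bad : ℕ → Set Ω := fun N => ⋃ c ∈ W N, E N c with hbad
  have hb : ∀ N : ℕ, 1 ≤ N → P (bad N) ≤ ENNReal.ofReal (K₀ * K * (1 / (N : ℝ) ^ 2)) := by
    intro N hN
    have hN0 : (0 : ℝ) < N := by exact_mod_cast hN
    have h1 : P (bad N) ≤ ∑ c ∈ W N, P (E N c) := measure_biUnion_finset_le _ _
    have h2 : ∀ c ∈ W N, P (E N c) ≤ ENNReal.ofReal (K / (N : ℝ) ^ (B + 2)) := by
      intro c _
      rw [← ofReal_measureReal (measure_ne_top P _)]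
      exact ENNReal.ofReal_le_ofReal (hdev N c hN)
    refine h1.trans ((sum_le_sum h2).trans ?_)
    rw [sum_const, nsmul_eq_mul, ← ENNReal.ofReal_natCast, ← ENNReal.ofReal_mul (Nat.cast_nonneg _)]
    refine ENNReal.ofReal_le_ofReal ?_
    calc ((W N).card : ℝ) * (K / (N : ℝ) ^ (B + 2)) ≤ K₀ * (N : ℝ) ^ B * (K / (N : ℝ) ^ (B + 2)) :=
          mul_le_mul_of_nonneg_right (hW N hN) (by positivity)
      _ = _ := by
          rw [pow_add]
          field_simp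
  have hsum : ∑' N, P (bad (N + 1)) ≠ ⊤ := by
    have hs : Summable fun N : ℕ => K₀ * K * (1 / ((N + 1 : ℕ) : ℝ) ^ 2) :=
      ((summable_nat_add_iff 1).2 (Real.summable_one_div_nat_pow.2 (by norm_num))).mul_left _
    refine ne_top_of_le_ne_top hs.tsum_ofReal_ne_top (ENNReal.tsum_le_tsum fun N => ?_)
    exact hb (N + 1) (by omega)
  filter_upwards [ae_eventually_notMem hsum] with ω hω
  rw [eventually_atTop] at hω ⊢
  obtain ⟨a, ha⟩ := hω
  refine ⟨a + 1, fun N hN c hc => ?_⟩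
  have h1 := ha (N - 1) (by omega)
  rw [Nat.sub_add_cancel (by omega)] at h1
  by_contra h2
  rw [not_le] at h2
  exact h1 (Set.mem_biUnion hc h2)

/-- families of polynomial size: almost surely square root cancellation -/
theorem lin_real (h : Signs P f) (W : ℕ → Finset (ℕ → ℝ)) (B : ℕ) (K₀ : ℝ)
    (hW : ∀ N, 1 ≤ N → ((W N).card : ℝ) ≤ K₀ * (N : ℝ) ^ B) :
    ∀ᵐ ω ∂P, ∀ ε : ℝ, 0 < ε → ∃ C : ℝ, 0 < C ∧ ∀ N : ℕ, 1 ≤ N → ∀ c ∈ W N,
      |∑ n ∈ Icc 1 N, c n * rf (fun p => f p ω) n| ≤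
        C * (N : ℝ) ^ ε * √(∑ n ∈ Icc 1 N, c n ^ 2) := by
  have h1 : ∀ᵐ ω ∂P, ∀ j : ℕ, ∀ᶠ N : ℕ in atTop, ∀ c ∈ W N,
      |∑ n ∈ Icc 1 N, c n * rf (fun p => f p ω) n| ≤
        (N : ℝ) ^ (1 / ((j : ℝ) + 1)) * √(∑ n ∈ Icc 1 N, c n ^ 2) :=
    ae_all_iff.2 fun j => ev_small h W B K₀ hW _ (by positivity)
  filter_upwards [h1] with ω hω ε hε
  obtain ⟨j, hj⟩ := exists_nat_gt (1 / ε)
  have hj' : 1 / ((j : ℝ) + 1) ≤ ε := by
    rw [div_lt_iff₀ hε] at hj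
    rw [div_le_iff₀ (by positivity)]
    nlinarith
  obtain ⟨N₀, hN₀⟩ := eventually_atTop.1 (hω j)
  refine ⟨1 + √N₀, by positivity, fun N hN c hc => ?_⟩
  have hN1 : (1 : ℝ) ≤ N := by exact_mod_cast hN
  have hS : 0 ≤ √(∑ n ∈ Icc 1 N, c n ^ 2) := Real.sqrt_nonneg _
  rcases le_or_gt N₀ N with h2 | h2
  · refine (hN₀ N h2 c hc).trans (mul_le_mul_of_nonneg_right ?_ hS)
    have h3 := Real.rpow_le_rpow_of_exponent_le hN1 hj'
    have h4 : 0 ≤ (N : ℝ) ^ ε := by positivity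
    nlinarith [Real.sqrt_nonneg (N₀ : ℝ)]
  · refine (triv (fun p => h.val p ω) N c).trans (mul_le_mul_of_nonneg_right ?_ hS)
    have h3 : √(N : ℝ) ≤ √(N₀ : ℝ) := Real.sqrt_le_sqrt (by exact_mod_cast h2.le)
    have h4 : 1 ≤ (N : ℝ) ^ ε := Real.one_le_rpow hN1 hε.le
    nlinarith [Real.sqrt_nonneg (N₀ : ℝ)]

/-- the same for complex coefficients -/
theorem lin_complex (h : Signs P f) (W : ℕ → Finset (ℕ → ℂ)) (B : ℕ) (K₀ : ℝ)
    (hW : ∀ N, 1 ≤ N → ((W N).card : ℝ) ≤ K₀ * (N : ℝ) ^ B) :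
    ∀ᵐ ω ∂P, ∀ ε : ℝ, 0 < ε → ∃ C : ℝ, 0 < C ∧ ∀ N : ℕ, 1 ≤ N → ∀ c ∈ W N,
      ‖∑ n ∈ Icc 1 N, c n * ((rf (fun p => f p ω) n : ℝ) : ℂ)‖ ≤
        C * (N : ℝ) ^ ε * √(∑ n ∈ Icc 1 N, ‖c n‖ ^ 2) := by
  classical
  have h1 := lin_real h (fun N => (W N).image fun c n => (c n).re) B K₀ fun N hN =>
    le_trans (by exact_mod_cast card_image_le) (hW N hN)
  have h2 := lin_real h (fun N => (W N).image fun c n => (c n).im) B K₀ fun N hN =>
    le_trans (by exact_mod_cast card_image_le) (hW N hN)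
  filter_upwards [h1, h2] with ω h1 h2 ε hε
  obtain ⟨C₁, hC₁, h1⟩ := h1 ε hε
  obtain ⟨C₂, hC₂, h2⟩ := h2 ε hε
  refine ⟨C₁ + C₂, by positivity, fun N hN c hc => ?_⟩
  have h3 := h1 N hN _ (mem_image_of_mem _ hc)
  have h4 := h2 N hN _ (mem_image_of_mem _ hc)
  have hre : (∑ n ∈ Icc 1 N, c n * ((rf (fun p => f p ω) n : ℝ) : ℂ)).re =
      ∑ n ∈ Icc 1 N, (c n).re * rf (fun p => f p ω) n := by
    rw [Complex.re_sum]
    exact sum_congr rfl fun n _ => by simp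
  have him : (∑ n ∈ Icc 1 N, c n * ((rf (fun p => f p ω) n : ℝ) : ℂ)).im =
      ∑ n ∈ Icc 1 N, (c n).im * rf (fun p => f p ω) n := by
    rw [Complex.im_sum]
    exact sum_congr rfl fun n _ => by simp
  refine (Complex.norm_le_abs_re_add_abs_im _).trans ?_
  rw [hre, him]
  have e1 : √(∑ n ∈ Icc 1 N, (c n).re ^ 2) ≤ √(∑ n ∈ Icc 1 N, ‖c n‖ ^ 2) := by
    refine Real.sqrt_le_sqrt (sum_le_sum fun n _ => ?_)
    rw [← sq_abs]
    exact pow_le_pow_left₀ (abs_nonneg _) (Complex.abs_re_le_norm _) 2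
  have e2 : √(∑ n ∈ Icc 1 N, (c n).im ^ 2) ≤ √(∑ n ∈ Icc 1 N, ‖c n‖ ^ 2) := by
    refine Real.sqrt_le_sqrt (sum_le_sum fun n _ => ?_)
    rw [← sq_abs]
    exact pow_le_pow_left₀ (abs_nonneg _) (Complex.abs_im_le_norm _) 2
  have hN0 : 0 ≤ (N : ℝ) ^ ε := by positivity
  calc _ ≤ C₁ * (N : ℝ) ^ ε * √(∑ n ∈ Icc 1 N, (c n).re ^ 2) +
        C₂ * (N : ℝ) ^ ε * √(∑ n ∈ Icc 1 N, (c n).im ^ 2) := add_le_add h3 h4
    _ ≤ C₁ * (N : ℝ) ^ ε * √(∑ n ∈ Icc 1 N, ‖c n‖ ^ 2) +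
        C₂ * (N : ℝ) ^ ε * √(∑ n ∈ Icc 1 N, ‖c n‖ ^ 2) :=
        add_le_add (mul_le_mul_of_nonneg_left e1 (by positivity))
          (mul_le_mul_of_nonneg_left e2 (by positivity))
    _ = _ := by ring

end Pool.Agent.U585.SK
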